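import Pool.Agent.Q120.TT.Stm

/-! # Project TT, job ENTG: the entropy inequality for a general product law -/

set_option autoImplicit false

namespace Pool.Agent.Q111.TT

open Finset Pool.Agent.Q120.ET Pool.Agent.Q120.TT

theorem sum_prodOn (p : ℕ → ℝ) (B : Finset ℕ) : ∑ T ∈ B.powerset, prodOn p B T = 1 := by
  unfold prodOn
  rw [← prod_add]
  apply prod_eq_one
  intro n _
  ring

theorem prodOn_nonneg {p : ℕ → ℝ} {B T : Finset ℕ} (hp : ∀ n ∈ B, 0 ≤ p n ∧ p n ≤ 1)
    (hT : T ⊆ B) : 0 ≤ prodOn p B T := by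
  unfold prodOn
  apply mul_nonneg
  · exact prod_nonneg fun n hn => (hp n (hT hn)).1
  · exact prod_nonneg fun n hn => by
      have := (hp n (mem_sdiff.1 hn).1).2
      linarith

theorem entropy_gen {p : ℕ → ℝ} {B : Finset ℕ} (hp : ∀ n ∈ B, 0 ≤ p n ∧ p n ≤ 1)
    {R : Finset ℕ → ℝ} (hR : IsLaw p B R) (F : Finset ℕ → Prop) [DecidablePred F] (u : ℝ) :
    u * ∑ T ∈ B.powerset with F T, R T - Real.exp u * ∑ T ∈ B.powerset with F T, prodOn p B T ≤
      entOf p B R := by
  have h1 : ∀ T ∈ B.powerset, (if F T then u * R T - Real.exp u * prodOn p B T else 0) +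
      (R T - prodOn p B T) ≤ R T * Real.log (R T / prodOn p B T) := by
    intro T hT
    have h0 := prodOn_nonneg hp (mem_powerset.1 hT)
    rcases h0.eq_or_lt with hz | hq
    · have hR0 := hR.cont T hT hz.symm
      rw [hR0, ← hz]
      simp
    · split_ifs with h
      · have h2 := young (s := u + 1) (hR.nonneg T hT) hq
        rw [add_sub_cancel_right] at h2
        nlinarith [Real.exp_pos u]
      · have h2 := young (s := 1) (hR.nonneg T hT) hq
        rw [sub_self, Real.exp_zero] at h2
        linarith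
  have h2 := sum_le_sum h1
  rw [sum_add_distrib, sum_sub_distrib, hR.total, sum_prodOn, sub_self, add_zero, ← sum_filter,
    sum_sub_distrib, ← mul_sum, ← mul_sum] at h2
  exact h2

open Classical in
theorem t_ENTG : J_ENTG := by
  intro p B hp R hR F u hu hF
  have h1 := entropy_gen hp hR F u
  rw [le_div_iff₀ hu]
  have h2 : Real.exp u * ∑ T ∈ B.powerset with F T, prodOn p B T ≤ Real.exp u * Real.exp (-u) :=
    mul_le_mul_of_nonneg_left hF (Real.exp_pos u).le
  rw [← Real.exp_add, add_neg_cancel, Real.exp_zero] at h2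
  linarith

end Pool.Agent.Q111.TT
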